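import Mathlib

set_option autoImplicit false

namespace Pool.Agent.Results.MP_940262_co.Disproof

/-- `D` is `k`-dominating: every vertex is at distance at most `k` from a vertex of `D`. -/
def IsKDom {V : Type} (G : SimpleGraph V) (k : ℕ) (D : Finset V) : Prop :=
  ∀ v, ∃ u ∈ D, G.edist u v ≤ k

/-- The `k`-domination number. -/
noncomputable def gamma {V : Type} (G : SimpleGraph V) (k : ℕ) : ℕ :=
  sInf {m | ∃ D : Finset V, D.card = m ∧ IsKDom G k D}

/-- The `k`-degree `|N_k(v)|`. -/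
noncomputable def kdeg {V : Type} (G : SimpleGraph V) (k : ℕ) (v : V) : ℕ :=
  {u | u ≠ v ∧ G.edist u v ≤ k}.ncard

/-- The minimum `k`-degree. -/
noncomputable def minKdeg {V : Type} (G : SimpleGraph V) (k : ℕ) : ℕ :=
  sInf (Set.range (kdeg G k))

/-- Every vertex is `k`-critical (distances measured in `G - v`). -/
def Critical {V : Type} (G : SimpleGraph V) (k : ℕ) : Prop :=
  ∀ v, gamma (G.induce {u | u ≠ v}) k < gamma G k

lemma le2 {V : Type} (G : SimpleGraph V) (u v : V) :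
    G.edist u v ≤ (2 : ℕ) ↔ u = v ∨ G.Adj u v ∨ ∃ w, G.Adj u w ∧ G.Adj w v := by
  constructor
  · intro h
    obtain ⟨p, hp⟩ := SimpleGraph.exists_walk_of_edist_ne_top (G := G) (u := u) (v := v)
      (fun e => by rw [e] at h; simp at h)
    rw [← hp] at h
    have h' : p.length ≤ 2 := by exact_mod_cast h
    clear h hp
    rcases p with _ | ⟨a, _ | ⟨b, _ | ⟨c, p⟩⟩⟩
    · exact Or.inl rfl
    · exact Or.inr (Or.inl a)
    · exact Or.inr (Or.inr ⟨_, a, b⟩)
    · simp at h'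
  · rintro (rfl | h | ⟨w, a, b⟩)
    · simp
    · rw [SimpleGraph.edist_eq_one_iff_adj.2 h]; norm_num
    · exact SimpleGraph.edist_le (SimpleGraph.Walk.cons a (SimpleGraph.Walk.cons b .nil))

def M : SimpleGraph (Fin 16) := SimpleGraph.fromRel (fun x y => y = x + 1 ∨ y = x + 8)

instance : DecidableRel M.Adj := fun x y => by unfold M; infer_instance

def W (u v : Fin 16) : Prop := u = v ∨ M.Adj u v ∨ ∃ w, M.Adj u w ∧ M.Adj w v

instance : DecidableRel W := fun x y => by unfold W; infer_instance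

lemma no2 : ∀ a b : Fin 16, ∃ v, ¬ W a v ∧ ¬ W b v := by decide +kernel

lemma g3 : gamma M 2 = 3 := by
  apply IsLeast.csInf_eq
  refine ⟨⟨{0, 1, 4}, by decide, fun v => ?_⟩, ?_⟩
  · simp only [le2]; revert v; decide +kernel
  · rintro m ⟨D, rfl, hD⟩
    by_contra hlt
    obtain ⟨a, b, hab⟩ : ∃ a b, D ⊆ {a, b} := by
      have : D.card = 0 ∨ D.card = 1 ∨ D.card = 2 := by omega
      rcases this with h | h | h
      · exact ⟨0, 0, by simp [Finset.card_eq_zero.1 h]⟩
      · obtain ⟨a, rfl⟩ := Finset.card_eq_one.1 h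
        exact ⟨a, a, by simp⟩
      · obtain ⟨a, b, -, rfl⟩ := Finset.card_eq_two.1 h
        exact ⟨a, b, subset_rfl⟩
    obtain ⟨v, h1, h2⟩ := no2 a b
    obtain ⟨u, hu, h⟩ := hD v
    have := hab hu
    simp only [Finset.mem_insert, Finset.mem_singleton] at this
    rcases this with rfl | rfl
    · exact h1 ((le2 M _ _).1 h)
    · exact h2 ((le2 M _ _).1 h)

lemma crit : ∀ v x : Fin 16, x ≠ v → ∃ u, (u = v + 6 ∨ u = v + 10) ∧
    (u = x ∨ M.Adj u x ∨ ∃ w, w ≠ v ∧ M.Adj u w ∧ M.Adj w x) := by decide +kernel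

theorem result : ∃ (k l n : ℕ) (G : SimpleGraph (Fin n)), 2 ≤ k ∧ 3 ≤ l ∧ G.Connected ∧
    Critical G k ∧ gamma G k = l ∧ n ≤ (minKdeg G k + 1) * (l - 1) := by
  refine ⟨2, 3, 16, M, le_rfl, le_rfl, by decide +kernel, fun v => ?_, g3, ?_⟩
  · rw [g3]
    have a6 : v + 6 ≠ v := by revert v; decide
    have a10 : v + 10 ≠ v := by revert v; decide
    refine lt_of_le_of_lt (Nat.sInf_le ⟨{⟨v + 6, a6⟩, ⟨v + 10, a10⟩}, rfl, ?_⟩)
      (lt_of_le_of_lt Finset.card_le_two (by norm_num))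
    rintro ⟨x, hx⟩
    obtain ⟨u, hu, h⟩ := crit v x hx
    have hv : u ≠ v := by rcases hu with rfl | rfl <;> assumption
    refine ⟨⟨u, hv⟩, by simpa using hu, (le2 _ _ _).2 ?_⟩
    rcases h with h | h | ⟨w, h1, h2, h3⟩
    · exact Or.inl (Subtype.ext h)
    · exact Or.inr (Or.inl h)
    · exact Or.inr (Or.inr ⟨⟨w, h1⟩, h2, h3⟩)
  · have : ∀ v, kdeg M 2 v = 7 := fun v => by
      have e : {u | u ≠ v ∧ M.edist u v ≤ (2 : ℕ)} =
          ↑(Finset.univ.filter (fun u => u ≠ v ∧ W u v)) := by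
        ext u; simp only [le2, W]; simp
      rw [kdeg, e, Set.ncard_coe_finset]
      clear e; revert v; decide +kernel
    have h7 : Set.range (kdeg M 2) = {7} := by
      ext m; simp [this, eq_comm]
    rw [minKdeg, h7]; simp

end Pool.Agent.Results.MP_940262_co.Disproof
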